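import Pool.Agent.Helper75.CR.St

set_option autoImplicit false

namespace Pool.Agent.Helper4.CR

open Pool.Agent.Helper75.CR

theorem one_idx {B : Type} {i : ℕ} {u : Wo B} (h : cn u = {i}) : ∃ a u', u = a :: u' ∧ a.1 = i ∧ cn u' ⊆ {i} := by
  cases u with
  | nil => simp at h
  | cons a u' =>
    rw [cn_cons] at h
    refine ⟨a, u', rfl, ?_, ?_⟩
    · have : a.1 ∈ insert a.1 (cn u') := Finset.mem_insert_self _ _
      rw [h] at this
      exact Finset.mem_singleton.1 this
    · rw [← h]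
      exact Finset.subset_insert _ _

theorem hH1 (hD : Pool.Agent.Helper75.CR.StD) : Pool.Agent.Helper75.CR.StH1 := by
  intro B S θ hθ α β hα hβ _ _ u w v hm h1 h2
  obtain ⟨i, hi⟩ := Finset.card_eq_one.1 hm
  have hwi : cn w = {i} := h1.cn.symm.trans hi
  have hvi : cn v = {i} := h2.cn.symm.trans hwi
  obtain ⟨a, u', hu, ha, hu'⟩ := one_idx hi
  obtain ⟨b, w', hw, hb, hw'⟩ := one_idx hwi
  obtain ⟨c, v', hv, hc, hv'⟩ := one_idx hvi
  have ea : ∀ ρ : Pg S, LeP θ ρ → Er ρ [a] u := by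
    intro ρ hρ
    have := hθ.extρ hρ (u := [a]) (t := u') (by simp) (by simpa [ha] using hu')
    rw [hu]
    simpa using this
  have ec : ∀ ρ : Pg S, LeP θ ρ → Er ρ [c] v := by
    intro ρ hρ
    have := hθ.extρ hρ (u := [c]) (t := v') (by simp) (by simpa [hc] using hv')
    rw [hv]
    simpa using this
  have hu0 : u ≠ [] := by rw [hu]; simp
  have hv0 : v ≠ [] := by rw [hv]; simp
  by_cases hac : a = c
  · refine ⟨u, Er.rfl' β hu0, ?_⟩
    subst hac
    exact (ea α hα).symm.trans (ec α hα)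
  · have key : ∀ ρ : Pg S, LeP θ ρ → (∀ (j : ℕ) (x y : B), Er ρ [(j, x)] [(j, y)]) → Er ρ u v := by
      intro ρ hρ h
      have h3 := h i a.2 c.2
      have ha' : ((i, a.2) : ℕ × B) = a := by rw [← ha]
      have hc' : ((i, c.2) : ℕ × B) = c := by rw [← hc]
      rw [ha', hc'] at h3
      exact ((ea ρ hρ).symm.trans h3).trans (ec ρ hρ)
    by_cases hab : a = b
    · have hbc : b ≠ c := fun h => hac (hab.trans h)
      refine ⟨v, key β hβ ?_, Er.rfl' α hv0⟩
      rw [hw, hv] at h2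
      exact hD B S θ β hθ hβ b c w' v' (hb.trans hc.symm) hbc h2
    · refine ⟨u, Er.rfl' β hu0, key α hα ?_⟩
      rw [hu, hw] at h1
      exact hD B S θ α hθ hα a b u' w' (ha.trans hb.symm) hab h1

end Pool.Agent.Helper4.CR
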